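import Mathlib
import Pool.Agent.Y859.SF.Stm

/-!
# SF-FRA: fractions in a short interval
-/

set_option autoImplicit false

namespace Pool.Agent.Y363.SF

open Finset Pool.Agent.Y859.SF

/-- different fractions are not close -/
theorem sep {a b : ℚ} (h : a ≠ b) :
    1 / ((a.den : ℝ) * b.den) ≤ |(a : ℝ) - (b : ℝ)| := by
  have ha : (0 : ℝ) < a.den := by exact_mod_cast a.pos
  have hb : (0 : ℝ) < b.den := by exact_mod_cast b.pos
  have e1 : (a : ℝ) = a.num / a.den := Rat.cast_def a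
  have e2 : (b : ℝ) = b.num / b.den := Rat.cast_def b
  have e3 : (a : ℝ) - b = ((a.num * b.den - b.num * a.den : ℤ) : ℝ) / ((a.den : ℝ) * b.den) := by
    rw [e1, e2]
    push_cast
    field_simp
  have hz : a.num * b.den - b.num * a.den ≠ 0 := by
    intro h0
    apply h
    have h1 : (a : ℝ) - b = 0 := by
      rw [e3, h0]
      simp
    exact_mod_cast sub_eq_zero.1 h1
  rw [e3, abs_div, abs_of_pos (mul_pos ha hb)]
  apply div_le_div_of_nonneg_right _ (mul_pos ha hb).le
  rw [← Int.cast_abs]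
  exact_mod_cast Int.one_le_abs hz

/-- multiples of `v` in an interval -/
theorem mult_card {S : Finset ℕ} {A H v : ℕ} (hv : 0 < v)
    (hS : ∀ g ∈ S, A < g ∧ g ≤ A + H ∧ v ∣ g) : (S.card : ℝ) ≤ H / v + 1 := by
  have h1 : S.card ≤ (Ioc (A / v) ((A + H) / v)).card := by
    refine card_le_card_of_injOn (fun g => g / v) (fun g hg => ?_) (fun g hg g' hg' he => ?_)
    · obtain ⟨h1, h2, h3⟩ := hS g hg
      simp only [coe_Ioc, Set.mem_Ioc]
      refine ⟨?_, Nat.div_le_div_right h2⟩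
      rw [Nat.div_lt_iff_lt_mul hv, Nat.div_mul_cancel h3]
      exact h1
    · have e1 := Nat.div_mul_cancel (hS g hg).2.2
      have e2 := Nat.div_mul_cancel (hS g' hg').2.2
      have he' : g / v = g' / v := he
      rw [← e1, ← e2, he']
  rw [Nat.card_Ioc] at h1
  have h2 : (A + H) / v ≤ A / v + H / v + 1 := by
    rw [Nat.add_div hv]
    generalize A / v = x
    generalize H / v = y
    split_ifs <;> omega
  have h3 : S.card ≤ H / v + 1 := by
    generalize (A + H) / v = z at *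
    generalize A / v = x at *
    generalize H / v = y at *
    omega
  have h4 : ((H / v : ℕ) : ℝ) ≤ (H : ℝ) / v := Nat.cast_div_le
  have h5 : (S.card : ℝ) ≤ ((H / v : ℕ) : ℝ) + 1 := by exact_mod_cast h3
  linarith

/-- separated points in an interval -/
theorem sep_card {W : Finset ℚ} {Δ Q : ℝ} (hΔ : 0 ≤ Δ) (hQ : 0 < Q)
    (h1 : ∀ a ∈ W, ∀ b ∈ W, |(a : ℝ) - b| ≤ Δ) (h2 : ∀ a ∈ W, ∀ b ∈ W, a ≠ b →
    1 / Q ≤ |(a : ℝ) - b|) : (W.card : ℝ) ≤ Q * Δ + 1 := by
  rcases W.eq_empty_or_nonempty with h | hne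
  · rw [h, card_empty]
    push_cast
    positivity
  set c := W.min' hne with hc
  have hcm : c ∈ W := W.min'_mem hne
  have hcl : ∀ a ∈ W, (c : ℝ) ≤ a := fun a ha => by exact_mod_cast W.min'_le a ha
  have h3 : W.card ≤ (range (⌊Q * Δ⌋₊ + 1)).card := by
    refine card_le_card_of_injOn (fun a : ℚ => ⌊((a : ℝ) - c) * Q⌋₊) (fun a ha => ?_)
      (fun a ha b hb he => ?_)
    · simp only [coe_range, Set.mem_Iio]
      apply Nat.lt_succ_of_le
      apply Nat.floor_le_floor
      have h4 := h1 a ha c hcm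
      rw [abs_of_nonneg (sub_nonneg.2 (hcl a ha))] at h4
      rw [mul_comm]
      exact mul_le_mul_of_nonneg_left h4 hQ.le
    · have key : ∀ a ∈ W, ∀ b ∈ W, (a : ℝ) < b →
          ⌊((a : ℝ) - c) * Q⌋₊ < ⌊((b : ℝ) - c) * Q⌋₊ := by
        intro a ha b hb hab
        have hne2 : a ≠ b := by
          rintro rfl
          exact lt_irrefl _ hab
        have h4 := h2 a ha b hb hne2
        rw [abs_of_neg (sub_neg.2 hab), div_le_iff₀ hQ] at h4
        have h5 : 0 ≤ ((a : ℝ) - c) * Q := mul_nonneg (sub_nonneg.2 (hcl a ha)) hQ.le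
        have h6 := Nat.floor_le h5
        apply Nat.lt_of_succ_le
        apply Nat.le_floor
        push_cast
        nlinarith
      rcases lt_trichotomy (a : ℝ) b with h | h | h
      · exact absurd he (key a ha b hb h).ne
      · exact_mod_cast h
      · exact absurd he (key b hb a ha h).ne'
  rw [card_range] at h3
  have h4 := Nat.floor_le (mul_nonneg hQ.le hΔ)
  have h5 : (W.card : ℝ) ≤ (⌊Q * Δ⌋₊ : ℝ) + 1 := by exact_mod_cast h3
  linarith

theorem t_FRA : S_FRA := by
  classical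
  intro G φ A H K Δ hΔ hG hd
  rcases G.eq_empty_or_nonempty with rfl | hne
  · refine ⟨2, le_rfl, ?_, fun _ g hg => absurd hg (notMem_empty g)⟩
    rw [filter_empty, card_empty]
    push_cast
    positivity
  obtain ⟨g0, hg0, hmin⟩ := exists_min_image G (fun g => (φ g).den) hne
  obtain ⟨-, -, hpos, hlt, -, hK0⟩ := hG g0 hg0
  have hv2 : 2 ≤ (φ g0).den := by
    have h1 := (φ g0).pos
    by_contra hcon
    have h2 : (φ g0).den = 1 := by omega
    have h3 : φ g0 = ((φ g0).num : ℚ) := (Rat.den_eq_one_iff _).1 h2 |>.symm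
    rw [h3] at hpos hlt
    have h4 : 0 < (φ g0).num := by exact_mod_cast hpos
    have h5 : (φ g0).num < 1 := by exact_mod_cast hlt
    omega
  have hKpos : (0 : ℝ) < K := by
    have : 0 < K := by omega
    exact_mod_cast this
  have hK2 : (0 : ℝ) < (K : ℝ) ^ 2 := by positivity
  have hsep : ∀ g ∈ G, ∀ g' ∈ G, φ g ≠ φ g' → 1 / (K : ℝ) ^ 2 ≤ |(φ g : ℝ) - φ g'| := by
    intro g hg g' hg' hne'
    refine le_trans ?_ (sep hne')
    have h1 : ((φ g).den : ℝ) ≤ K := by exact_mod_cast (hG g hg).2.2.2.2.2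
    have h2 : ((φ g').den : ℝ) ≤ K := by exact_mod_cast (hG g' hg').2.2.2.2.2
    have h3 : (0 : ℝ) < (φ g).den := by exact_mod_cast (φ g).pos
    have h4 : (0 : ℝ) < (φ g').den := by exact_mod_cast (φ g').pos
    apply one_div_le_one_div_of_le (mul_pos h3 h4)
    rw [pow_two]
    exact mul_le_mul h1 h2 h4.le hKpos.le
  refine ⟨(φ g0).den, hv2, ?_, ?_⟩
  · set D := G.filter (fun g => φ g ≠ φ g0) with hD
    have hsub : G.filter (fun g => ¬ (φ g0).den ∣ g) ⊆ D := by
      intro g hg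
      obtain ⟨hg1, hg2⟩ := mem_filter.1 hg
      refine mem_filter.2 ⟨hg1, fun he => hg2 ?_⟩
      rw [← he]
      exact (hG g hg1).2.2.2.2.1
    have hDG : ∀ g ∈ D, g ∈ G ∧ φ g ≠ φ g0 := fun g hg => mem_filter.1 hg
    have hV : ((D.image φ).card : ℝ) ≤ (K : ℝ) ^ 2 * Δ + 1 := by
      refine sep_card hΔ hK2 ?_ ?_
      · intro a ha b hb
        obtain ⟨g, hg, rfl⟩ := mem_image.1 ha
        obtain ⟨g', hg', rfl⟩ := mem_image.1 hb
        exact hd g (hDG g hg).1 g' (hDG g' hg').1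
      · intro a ha b hb hab
        obtain ⟨g, hg, rfl⟩ := mem_image.1 ha
        obtain ⟨g', hg', rfl⟩ := mem_image.1 hb
        exact hsep g (hDG g hg).1 g' (hDG g' hg').1 hab
    have hfib : ∀ f ∈ D.image φ, ((D.filter (fun g => φ g = f)).card : ℝ) ≤
        H * Real.sqrt Δ + 1 := by
      intro f hf
      obtain ⟨g, hg, rfl⟩ := mem_image.1 hf
      obtain ⟨hg1, hg2⟩ := hDG g hg
      have h1 := mult_card (S := D.filter (fun g' => φ g' = φ g)) (A := A) (H := H)
        (v := (φ g).den) (φ g).pos (fun g' hg' => by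
          obtain ⟨h1, h2⟩ := mem_filter.1 hg'
          obtain ⟨h3, h4, -, -, h5, -⟩ := hG g' (hDG g' h1).1
          rw [h2] at h5
          exact ⟨h3, h4, h5⟩)
      refine h1.trans ?_
      have hv : (0 : ℝ) < (φ g).den := by exact_mod_cast (φ g).pos
      have hv0 : (0 : ℝ) < (φ g0).den := by exact_mod_cast (φ g0).pos
      have h2 := (sep hg2).trans (hd g hg1 g0 hg0)
      have h3 : ((φ g0).den : ℝ) ≤ (φ g).den := by exact_mod_cast hmin g hg1
      have h4 : 1 / ((φ g).den : ℝ) ^ 2 ≤ Δ := by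
        refine le_trans ?_ h2
        apply one_div_le_one_div_of_le (mul_pos hv hv0)
        rw [pow_two]
        exact mul_le_mul_of_nonneg_left h3 hv.le
      have h5 : 1 / ((φ g).den : ℝ) ≤ Real.sqrt Δ := by
        apply Real.le_sqrt_of_sq_le
        rwa [div_pow, one_pow]
      have h6 : (H : ℝ) / (φ g).den = H * (1 / (φ g).den) := by ring
      rw [h6]
      have h7 := mul_le_mul_of_nonneg_left h5 (Nat.cast_nonneg H : (0 : ℝ) ≤ H)
      linarith
    have hb0 : (0 : ℝ) ≤ H * Real.sqrt Δ + 1 := by positivity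
    have hD1 : D.card ≤ ⌊H * Real.sqrt Δ + 1⌋₊ * (D.image φ).card :=
      card_le_mul_card_image D _ fun f hf => Nat.le_floor (hfib f hf)
    calc ((G.filter (fun g => ¬ (φ g0).den ∣ g)).card : ℝ) ≤ D.card := by
          exact_mod_cast card_le_card hsub
      _ ≤ (⌊H * Real.sqrt Δ + 1⌋₊ : ℝ) * ((D.image φ).card : ℝ) := by exact_mod_cast hD1
      _ ≤ (H * Real.sqrt Δ + 1) * ((K : ℝ) ^ 2 * Δ + 1) :=
          mul_le_mul (Nat.floor_le hb0) hV (Nat.cast_nonneg _) hb0
      _ = _ := mul_comm _ _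
  · intro hlt1 g hg
    have he : φ g = φ g0 := by
      by_contra hne'
      have h1 := (hsep g hg g0 hg0 hne').trans (hd g hg g0 hg0)
      rw [div_le_iff₀ hK2] at h1
      linarith
    rw [← he]
    exact (hG g hg).2.2.2.2.1

end Pool.Agent.Y363.SF
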